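import Pool.Agent.Q35.GM.Stm
import Pool.Agent.Q280.EO.Mobk

/-! # Project GM (helper35), job GM-MOBB: inversion of Moebius for ideals, for boxes -/

set_option autoImplicit false

namespace Pool.Agent.Q53.GM

open Filter Topology NumberField IsDedekindDomain Finset
open Pool.Agent.Q35.MM (Pts)
open Pool.Agent.Q35.SM (Vs)
open Pool.Agent.Q35.EO (YU hh)
open Pool.Agent.Q280.EO
open Pool.Agent.H691R3 (nm nm_summable two_le_nm)

section Pos

theorem tsum_prod_pos {P : Type} {f : P → ℝ} (h1 : ∀ i, -1 < f i)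
    (h : Summable fun i => ‖f i‖) : 0 < ∑' s : Finset P, ∏ i ∈ s, f i := by
  rw [← tprod_one_add (summable_finsetProd_of_summable_norm h),
    ← Real.rexp_tsum_eq_tprod (fun i => by linarith [h1 i])
      (Real.summable_log_one_add_of_summable h.of_norm)]
  exact Real.exp_pos _

/-- families of finite sets and finite sets of pairs -/
def fs (ι P : Type) [Fintype ι] [DecidableEq ι] [DecidableEq P] :
    (ι → Finset P) ≃ Finset (Σ _ : ι, P) where
  toFun T := Finset.univ.sigma T
  invFun S := fun l => (S.filter fun p => p.1 = l).image fun p => p.2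
  left_inv T := by
    funext l
    ext v
    simp only [mem_image, mem_filter, mem_sigma, mem_univ, true_and]
    constructor
    · rintro ⟨⟨l', v'⟩, ⟨h1, h2⟩, h3⟩
      dsimp only at h1 h2 h3
      subst h2 h3
      exact h1
    · intro h
      exact ⟨⟨l, v⟩, ⟨h, rfl⟩, rfl⟩
  right_inv S := by
    ext ⟨l, v⟩
    simp only [mem_sigma, mem_univ, true_and, mem_image, mem_filter]
    constructor
    · rintro ⟨⟨l', v'⟩, ⟨h1, h2⟩, h3⟩
      dsimp only at h1 h2 h3
      subst h2 h3
      exact h1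
    · intro h
      exact ⟨⟨l, v⟩, ⟨h, rfl⟩, rfl⟩

end Pos

section Main

variable {K : Type} [Field K] [NumberField K] {ι : Type} [Fintype ι] [DecidableEq ι]

theorem zpos {r : ι → ℕ} (hr : ∀ l, 2 ≤ r l) :
    0 < ∑' T : Fml K ι, sg T * (1 / wt r T) := by
  classical
  set f : (Σ _ : ι, HeightOneSpectrum (𝓞 K)) → ℝ := fun p => -((nm p.2 : ℝ)⁻¹ ^ r p.1) with hf
  have hnm : ∀ v : HeightOneSpectrum (𝓞 K), (2 : ℝ) ≤ (nm v : ℝ) := fun v => by
    exact_mod_cast two_le_nm v
  have hinv : ∀ v : HeightOneSpectrum (𝓞 K), 0 ≤ (nm v : ℝ)⁻¹ ∧ (nm v : ℝ)⁻¹ ≤ 1 / 2 := by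
    intro v
    refine ⟨by positivity, ?_⟩
    rw [one_div]
    exact inv_anti₀ (by norm_num) (hnm v)
  have e : ∀ T : Fml K ι, sg T * (1 / wt r T) =
      ∏ p ∈ fs ι (HeightOneSpectrum (𝓞 K)) T, f p := by
    intro T
    show sg T * (1 / wt r T) = ∏ p ∈ Finset.univ.sigma T, f p
    rw [Finset.prod_sigma]
    unfold sg wt
    rw [one_div, ← Finset.prod_inv_distrib, ← Finset.prod_mul_distrib]
    refine prod_congr rfl fun l _ => ?_
    rw [absNorm_idl, ← Finset.prod_pow, ← Finset.prod_inv_distrib, ← Finset.prod_const,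
      ← Finset.prod_mul_distrib]
    refine prod_congr rfl fun v _ => ?_
    simp only [hf]
    rw [inv_pow, neg_one_mul]
  have h1 : ∑' T : Fml K ι, sg T * (1 / wt r T) =
      ∑' S : Finset (Σ _ : ι, HeightOneSpectrum (𝓞 K)), ∏ p ∈ S, f p := by
    rw [tsum_congr e]
    exact (fs ι (HeightOneSpectrum (𝓞 K))).tsum_eq fun S => ∏ p ∈ S, f p
  rw [h1]
  refine tsum_prod_pos (fun p => ?_) ?_
  · simp only [hf]
    have h2 : (nm p.2 : ℝ)⁻¹ ^ r p.1 ≤ 1 / 2 := by
      refine (pow_le_of_le_one (hinv p.2).1 ((hinv p.2).2.trans (by norm_num)) ?_).trans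
        (hinv p.2).2
      have := hr p.1
      omega
    linarith
  · have h2 : ∀ p : (Σ _ : ι, HeightOneSpectrum (𝓞 K)), ‖f p‖ = (nm p.2 : ℝ)⁻¹ ^ r p.1 := by
      intro p
      simp only [hf]
      rw [norm_neg, Real.norm_eq_abs, abs_of_nonneg (pow_nonneg (hinv p.2).1 _)]
    have h6 : ∀ p : (Σ _ : ι, HeightOneSpectrum (𝓞 K)), 0 ≤ (nm p.2 : ℝ)⁻¹ ^ r p.1 := by
      intro p
      exact pow_nonneg (hinv p.2).1 _
    rw [summable_congr h2, summable_sigma_of_nonneg h6]
    refine ⟨fun l => ?_, (hasSum_fintype _).summable⟩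
    have h3 : Summable (fun v : HeightOneSpectrum (𝓞 K) => ((nm v : ℝ)⁻¹) ^ 2) := by
      refine (nm_summable (K := K) (x := 2) (by norm_num)).congr fun v => ?_
      rw [Real.rpow_neg (by positivity), inv_pow]
      norm_num
    show Summable fun v : HeightOneSpectrum (𝓞 K) => (nm v : ℝ)⁻¹ ^ r l
    have h4 : ∀ v : HeightOneSpectrum (𝓞 K), (nm v : ℝ)⁻¹ ^ r l ≤ (nm v : ℝ)⁻¹ ^ 2 := by
      intro v
      have h5 : (nm v : ℝ)⁻¹ ≤ 1 := (hinv v).2.trans (by norm_num)
      exact pow_le_pow_of_le_one (hinv v).1 h5 (hr l)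
    exact Summable.of_nonneg_of_le (fun v => pow_nonneg (hinv v).1 _) h4 h3

variable {n : ι → ℕ}

/-- the pairs in a box -/
def YX (U : Vs K n → Prop) (β : ι → ℝ) : Set (Pts K n × (ι → Ideal (𝓞 K))) :=
  {y ∈ YU U | ∀ l, hh l y ≤ β l}

/-- the box divided by a family -/
noncomputable def dv (β : ι → ℝ) (T : Fml K ι) : ι → ℝ :=
  fun l => β l / (Ideal.absNorm (idl (T l)) : ℝ)

omit [Fintype ι] [DecidableEq ι] in
theorem set_eqb (U : Vs K n → Prop) (β : ι → ℝ) (T : Fml K ι) :
    {y ∈ YX U β | ∀ l, idl (T l) ∣ y.2 l} =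
      (fun y : Pts K n × (ι → Ideal (𝓞 K)) => (y.1, fun l => idl (T l) * y.2 l)) ''
        YX U (dv β T) := by
  have hN : ∀ l, (0 : ℝ) < (Ideal.absNorm (idl (T l)) : ℝ) := fun l =>
    lt_of_lt_of_le one_pos (one_le_absNorm (idl_ne (T l)))
  have hprod : ∀ (y : Pts K n × (ι → Ideal (𝓞 K))) (l : ι),
      hh l (y.1, fun l => idl (T l) * y.2 l) =
        (Ideal.absNorm (idl (T l)) : ℝ) * hh l y := by
    intro y l
    unfold hh
    simp only [map_mul, Nat.cast_mul]
    ring
  ext y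
  constructor
  · rintro ⟨⟨⟨h1, h2⟩, h3⟩, h4⟩
    choose d hd using h4
    refine ⟨(y.1, d), ⟨⟨h1, fun l h => h2 l ?_⟩, fun l => ?_⟩, ?_⟩
    · rw [hd l]
      have : d l = ⊥ := h
      rw [this, Ideal.mul_bot]
    · unfold dv
      rw [le_div_iff₀ (hN l), mul_comm, ← hprod]
      have e : (((y.1, d) : Pts K n × (ι → Ideal (𝓞 K))).1,
          fun l => idl (T l) * ((y.1, d) : Pts K n × (ι → Ideal (𝓞 K))).2 l) = y :=
        Prod.ext rfl (funext fun l => (hd l).symm)
      rw [e]
      exact h3 l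
    · exact Prod.ext rfl (funext fun l => (hd l).symm)
  · rintro ⟨y, ⟨⟨h1, h2⟩, h3⟩, rfl⟩
    refine ⟨⟨⟨h1, fun l => mul_ne_zero (idl_ne _) (h2 l)⟩, fun l => ?_⟩,
      fun l => dvd_mul_right _ _⟩
    have h4 := h3 l
    unfold dv at h4
    rw [hprod]
    rwa [le_div_iff₀ (hN l), mul_comm] at h4

/-- the sum of the weights of the pairs in a box -/
noncomputable def NB (U : Vs K n → Prop) (w : Pts K n → ℝ) (β : ι → ℝ) : ℝ :=
  ∑ᶠ y ∈ YX U β, w y.1

omit [Fintype ι] [DecidableEq ι] in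
theorem countb (U : Vs K n → Prop) (w : Pts K n → ℝ) (β : ι → ℝ) (T : Fml K ι) :
    NB U w (dv β T) = ∑ᶠ y ∈ {y ∈ YX U β | ∀ l, idl (T l) ∣ y.2 l}, w y.1 := by
  unfold NB
  rw [set_eqb U β T, finsum_mem_image]
  intro y _ z _ h
  have h2 := congrArg Prod.fst h
  have h3 := congrArg Prod.snd h
  refine Prod.ext h2 (funext fun l => ?_)
  exact mul_left_cancel₀ (idl_ne (T l)) (congrFun h3 l)

theorem keyb (U : Vs K n → Prop) (w : Pts K n → ℝ) (β : ι → ℝ) (hfin : (YX U β).Finite) :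
    ∑ᶠ x ∈ {x : Pts K n | U (fun i => (x i).rep) ∧ ∀ l, (x l).mulHeight ≤ β l}, w x =
      ∑' T : Fml K ι, sg T * NB U w (dv β T) := by
  classical
  set Y := hfin.toFinset with hY
  have hYm : ∀ y, y ∈ Y ↔ y ∈ YX U β := fun y => Set.Finite.mem_toFinset _
  set P : (ι → Ideal (𝓞 K)) → Finset (Fml K ι) :=
    fun 𝔠 => Fintype.piFinset (fun l => (D (𝔠 l)).powerset) with hP
  have hPm : ∀ (𝔠 : ι → Ideal (𝓞 K)), (∀ l, 𝔠 l ≠ ⊥) → ∀ T : Fml K ι,
      T ∈ P 𝔠 ↔ ∀ l, idl (T l) ∣ 𝔠 l := by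
    intro 𝔠 h T
    rw [hP, Fintype.mem_piFinset]
    refine forall_congr' fun l => ?_
    rw [Finset.mem_powerset, idl_dvd_iff]
    exact ⟨fun h1 v hv => (mem_D (h l)).mp (h1 hv), fun h1 v hv => (mem_D (h l)).mpr (h1 v hv)⟩
  have hcard : ∀ T : Fml K ι, NB U w (dv β T) =
      ∑ y ∈ Y, w y.1 * (if T ∈ P y.2 then (1 : ℝ) else 0) := by
    intro T
    rw [countb]
    have e : {y ∈ YX U β | ∀ l, idl (T l) ∣ y.2 l} =
        ((Y.filter fun y => T ∈ P y.2 : Finset _) : Set (Pts K n × (ι → Ideal (𝓞 K)))) := by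
      ext y
      simp only [Finset.coe_filter, Set.mem_ofPred_eq, hYm]
      constructor
      · rintro ⟨h1, h2⟩
        exact ⟨h1, (hPm y.2 h1.1.2 T).mpr h2⟩
      · rintro ⟨h1, h2⟩
        exact ⟨h1, (hPm y.2 h1.1.2 T).mp h2⟩
    rw [e, finsum_mem_coe_finset, Finset.sum_filter]
    refine sum_congr rfl fun y _ => ?_
    split_ifs
    · rw [mul_one]
    · rw [mul_zero]
  set F := Y.biUnion fun y => P y.2 with hF
  rw [tsum_eq_sum (s := F)]
  · calc ∑ᶠ x ∈ {x : Pts K n | U (fun i => (x i).rep) ∧ ∀ l, (x l).mulHeight ≤ β l}, w x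
        = ∑ y ∈ Y.filter (fun y => y.2 = 1), w y.1 := by
          have e : ((Y.filter fun y => y.2 = 1 : Finset _) : Set (Pts K n × (ι → Ideal (𝓞 K)))) =
              (fun x : Pts K n => (x, (1 : ι → Ideal (𝓞 K)))) ''
                {x : Pts K n | U (fun i => (x i).rep) ∧ ∀ l, (x l).mulHeight ≤ β l} := by
            have hone : ∀ (x : Pts K n) (l : ι), hh l (x, (1 : ι → Ideal (𝓞 K))) =
                (x l).mulHeight := by
              intro x l
              unfold hh
              simp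
            ext y
            simp only [Finset.coe_filter, Set.mem_ofPred_eq, hYm, Set.mem_image]
            constructor
            · rintro ⟨h1, h2⟩
              refine ⟨y.1, ⟨h1.1.1, fun l => ?_⟩, Prod.ext rfl h2.symm⟩
              rw [← hone]
              have h3 := h1.2 l
              have e2 : (y.1, (1 : ι → Ideal (𝓞 K))) = y := Prod.ext rfl h2.symm
              rwa [e2]
            · rintro ⟨x, ⟨h1, h2⟩, rfl⟩
              exact ⟨⟨⟨h1, fun l => one_ne_zero⟩, fun l => by rw [hone]; exact h2 l⟩, rfl⟩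
          rw [← finsum_mem_coe_finset, e, finsum_mem_image]
          exact fun x _ y _ h => congrArg Prod.fst h
      _ = ∑ y ∈ Y, w y.1 * (if y.2 = 1 then (1 : ℝ) else 0) := by
          rw [Finset.sum_filter]
          refine sum_congr rfl fun y _ => ?_
          split_ifs
          · rw [mul_one]
          · rw [mul_zero]
      _ = ∑ y ∈ Y, w y.1 * ∑ T ∈ P y.2, sg T := by
          refine sum_congr rfl fun y hy => ?_
          congr 1
          exact (sum_sg y.2 ((hYm y).mp hy).1.2).symm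
      _ = ∑ y ∈ Y, ∑ T ∈ F, sg T * (w y.1 * (if T ∈ P y.2 then (1 : ℝ) else 0)) := by
          refine sum_congr rfl fun y hy => ?_
          have hsub : P y.2 ⊆ F := fun T hT => mem_biUnion.mpr ⟨y, hy, hT⟩
          rw [← Finset.sum_subset hsub
            (f := fun T => sg T * (w y.1 * (if T ∈ P y.2 then (1 : ℝ) else 0))), Finset.mul_sum]
          · refine sum_congr rfl fun T hT => ?_
            rw [if_pos hT, mul_one, mul_comm]
          · intro T _ hT
            rw [if_neg hT, mul_zero, mul_zero]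
      _ = ∑ T ∈ F, sg T * NB U w (dv β T) := by
          rw [Finset.sum_comm]
          refine sum_congr rfl fun T _ => ?_
          rw [hcard, Finset.mul_sum]
  · intro T hT
    rw [hcard, Finset.sum_eq_zero, mul_zero]
    intro y hy
    rw [if_neg fun h => hT (mem_biUnion.mpr ⟨y, hy, h⟩), mul_zero]

omit [DecidableEq ι] in
theorem prod_dv (r : ι → ℕ) (α : ι → ℝ) (B : ℝ) (T : Fml K ι) :
    ∏ l, dv (fun l => α l * B) T l ^ r l =
      B ^ (∑ l, r l) * ((∏ l, α l ^ r l) * (1 / wt r T)) := by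
  unfold dv wt
  rw [← Finset.prod_pow_eq_pow_sum, one_div, ← Finset.prod_inv_distrib,
    ← Finset.prod_mul_distrib, ← Finset.prod_mul_distrib]
  refine prod_congr rfl fun l _ => ?_
  rw [div_pow, mul_pow, div_eq_mul_inv]
  ring

end Main

theorem mobb : Pool.Agent.Q35.GM.S_MOBB := by
  intro K _ _ ι _ _ n r U W R C η hr hR hC hη hW0 hW1 hfin hub hasy
  set w : Pts K n → ℝ := fun x => W fun i => (x i).rep with hw
  have hfin' : ∀ β : ι → ℝ, (YX U β).Finite := by
    intro β
    refine (hfin (∑ l, |β l|)).subset fun y hy => ⟨hy.1, fun l => ?_⟩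
    exact ((hy.2 l).trans (le_abs_self _)).trans
      (single_le_sum (f := fun l => |β l|) (fun i _ => abs_nonneg _) (mem_univ l))
  have hfs : ∀ β : ι → ℝ, NB U w β = ∑ y ∈ (hfin' β).toFinset, w y.1 := by
    intro β
    unfold NB
    rw [finsum_mem_eq_finite_toFinset_sum _ (hfin' β)]
  have h0 : ∀ β : ι → ℝ, 0 ≤ NB U w β := fun β => by
    rw [hfs]
    exact sum_nonneg fun y _ => hW0 _
  have hle : ∀ β : ι → ℝ, NB U w β ≤ ((YX U β).ncard : ℝ) := by
    intro β
    rw [hfs, Set.ncard_eq_toFinset_card _ (hfin' β)]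
    calc ∑ y ∈ (hfin' β).toFinset, w y.1 ≤ ∑ y ∈ (hfin' β).toFinset, (1 : ℝ) :=
          sum_le_sum fun y _ => hW1 _
      _ = _ := by rw [sum_const, nsmul_eq_mul, mul_one]
  refine ⟨R * ∑' T : Fml K ι, sg T * (1 / wt r T), fun hR0 => mul_pos hR0 (zpos hr),
    fun α hα => ?_⟩
  set A : ℝ := ∏ l, α l ^ r l with hA
  have hA0 : 0 < A := prod_pos fun l _ => pow_pos (hα l) _
  have hwt : ∀ T : Fml K ι, 0 < wt r T := fun T => lt_of_lt_of_le one_pos (one_le_wt r T)
  have hN : ∀ (T : Fml K ι) (l : ι), (0 : ℝ) < (Ideal.absNorm (idl (T l)) : ℝ) := fun T l =>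
    lt_of_lt_of_le one_pos (one_le_absNorm (idl_ne (T l)))
  -- the upper bound
  have hdom : ∀ (B : ℝ), 0 < B → ∀ T : Fml K ι,
      NB U w (dv (fun l => α l * B) T) ≤ B ^ (∑ l, r l) * (C * (A * (1 / wt r T))) := by
    intro B hB T
    by_cases h : ∀ l, 1 ≤ dv (fun l => α l * B) T l
    · refine (hle _).trans ((hub _ h).trans (le_of_eq ?_))
      rw [prod_dv]
      ring
    · push Not at h
      obtain ⟨l, hl⟩ := h
      have e : YX U (dv (fun l => α l * B) T) = ∅ := by
        refine Set.eq_empty_of_forall_notMem fun y hy => ?_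
        have h2 : 1 ≤ hh l y := by
          unfold hh
          exact one_le_mul_of_one_le_of_one_le (one_le_absNorm (hy.1.2 l))
            (y.1 l).one_le_mulHeight
        linarith [hy.2 l]
      unfold NB
      rw [e, finsum_mem_empty]
      have := hwt T
      positivity
  -- the limit for one family
  have hlim : ∀ T : Fml K ι, Tendsto (fun B : ℝ =>
      NB U w (dv (fun l => α l * B) T) / B ^ (∑ l, r l)) atTop
        (𝓝 (R * (A * (1 / wt r T)))) := by
    intro T
    set c : ℝ := ∏ l, min 1 (α l / (Ideal.absNorm (idl (T l)) : ℝ)) with hc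
    have hmin : ∀ l, 0 < min 1 (α l / (Ideal.absNorm (idl (T l)) : ℝ)) := fun l =>
      lt_min one_pos (div_pos (hα l) (hN T l))
    have hc0 : 0 < c := prod_pos fun l _ => hmin l
    have hcl : ∀ l, c ≤ α l / (Ideal.absNorm (idl (T l)) : ℝ) := by
      intro l
      rw [hc, ← mul_prod_erase univ _ (mem_univ l)]
      calc min 1 (α l / (Ideal.absNorm (idl (T l)) : ℝ)) *
          ∏ l' ∈ univ.erase l, min 1 (α l' / (Ideal.absNorm (idl (T l')) : ℝ)) ≤
          min 1 (α l / (Ideal.absNorm (idl (T l)) : ℝ)) * 1 :=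
            mul_le_mul_of_nonneg_left (prod_le_one (fun i _ => (hmin i).le)
              fun i _ => min_le_left _ _) (hmin l).le
        _ ≤ _ := by
            rw [mul_one]
            exact min_le_right _ _
    have hA1 : 0 ≤ A * (1 / wt r T) := by
      have := hwt T
      positivity
    have hzero : Tendsto (fun B : ℝ => C * (c * B) ^ (-η) * (A * (1 / wt r T))) atTop (𝓝 0) := by
      have h1 : Tendsto (fun B : ℝ => (c * B) ^ (-η)) atTop (𝓝 0) :=
        (tendsto_rpow_neg_atTop hη).comp (tendsto_id.const_mul_atTop hc0)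
      have h2 := (h1.const_mul C).mul_const (A * (1 / wt r T))
      rwa [mul_zero, zero_mul] at h2
    rw [tendsto_iff_norm_sub_tendsto_zero]
    refine squeeze_zero' (Eventually.of_forall fun B => norm_nonneg _) ?_ hzero
    filter_upwards [eventually_ge_atTop (1 / c), eventually_gt_atTop 0] with B hB hB0
    have hm : 1 ≤ c * B := by
      rwa [div_le_iff₀ hc0, mul_comm] at hB
    have h1 := hasy (dv (fun l => α l * B) T) (c * B) hm fun l => by
      unfold dv
      rw [mul_div_right_comm]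
      exact mul_le_mul_of_nonneg_right (hcl l) hB0.le
    rw [prod_dv] at h1
    have hBp : 0 < B ^ (∑ l, r l) := pow_pos hB0 _
    have h2 : NB U w (dv (fun l => α l * B) T) / B ^ (∑ l, r l) - R * (A * (1 / wt r T)) =
        (NB U w (dv (fun l => α l * B) T) -
          R * (B ^ (∑ l, r l) * (A * (1 / wt r T)))) / B ^ (∑ l, r l) := by
      rw [sub_div]
      congr 1
      rw [eq_div_iff hBp.ne']
      ring
    rw [h2, Real.norm_eq_abs, abs_div, abs_of_pos hBp, div_le_iff₀ hBp]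
    refine le_trans h1 (le_of_eq ?_)
    ring
  have hmain : Tendsto (fun B : ℝ => ∑' T : Fml K ι,
      sg T * (NB U w (dv (fun l => α l * B) T) / B ^ (∑ l, r l))) atTop
      (𝓝 (∑' T : Fml K ι, sg T * (R * (A * (1 / wt r T))))) := by
    refine tendsto_tsum_of_dominated_convergence (bound := fun T : Fml K ι => C * A * (1 / wt r T))
      ((summable_wt hr).mul_left _) (fun T => (hlim T).const_mul _) ?_
    filter_upwards [eventually_gt_atTop 0] with B hB
    intro T
    have hBp : 0 < B ^ (∑ l, r l) := pow_pos hB _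
    rw [Real.norm_eq_abs, abs_mul, abs_sg, one_mul, abs_of_nonneg (div_nonneg (h0 _) hBp.le),
      div_le_iff₀ hBp]
    refine (hdom B hB T).trans (le_of_eq ?_)
    ring
  have hval : ∑' T : Fml K ι, sg T * (R * (A * (1 / wt r T))) =
      R * (∑' T : Fml K ι, sg T * (1 / wt r T)) * A := by
    rw [← tsum_mul_left, ← tsum_mul_right]
    refine tsum_congr fun T => ?_
    ring
  rw [hval] at hmain
  refine hmain.congr fun B => ?_
  have hk := keyb U w (fun l => α l * B) (hfin' _)
  rw [hk, ← tsum_div_const]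
  refine tsum_congr fun T => ?_
  rw [mul_div_assoc]

end Pool.Agent.Q53.GM
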