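import Pool.Agent.Q35.GM.Stm
import Pool.Agent.Q35.SM.Hom
import Pool.Agent.Q150.MM.GbA
import Pool.Agent.Q144.MM.Db

/-! # Project GM (helper35), job GM-THIN: few pairs of lines are in bad planes -/

set_option autoImplicit false

namespace Pool.Agent.Q53.GM

open Finset Function NumberField MvPolynomial
open Pool.Agent.Q35.MM (bx dg Pts)
open Pool.Agent.Q35.SM (Cof Vs Var Pol ev pv MH Opn Cut)
open Pool.Agent.Q35.GM

section

variable {K : Type} [Field K]

theorem opn_smul {ι : Type} [Fintype ι] [DecidableEq ι] {n : ι → ℕ} {A : Finset (Pol K n)}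
    (hA : ∀ g ∈ A, MH g) (a : ι → K) {P : Vs K n}
    (h : Opn K A fun i => a i • P i) : Opn K A P := by
  obtain ⟨g, hg, h1⟩ := h
  obtain ⟨δ, hδ⟩ := hA g hg
  refine ⟨g, hg, ?_⟩
  rw [Pool.Agent.Q35.SM.pv_smul hδ] at h1
  exact right_ne_zero_of_mul h1

theorem bil_smul {m : ℕ} (M : Matrix (Fin m) (Fin m) K) (a : K) (x y : Fin m → K) :
    bil K M (a • x) y = a * bil K M x y := by
  unfold bil
  rw [Finset.mul_sum]
  refine Finset.sum_congr rfl fun p _ => ?_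
  rw [Finset.mul_sum]
  refine Finset.sum_congr rfl fun q _ => ?_
  rw [Pi.smul_apply, smul_eq_mul]
  ring

theorem gd_smul {m k : ℕ} {M : Fin k → Matrix (Fin m) (Fin m) K} {a : K} (ha : a ≠ 0)
    {x : Fin m → K} (h : Gd K M x) : Gd K M (a • x) := by
  unfold Gd at h ⊢
  have h2 := h.units_smul (fun _ : Fin k => Units.mk0 a ha)
  have h3 : (fun (t : Fin k) (b : Fin m) => bil K (M t) (a • x) (Pi.single b 1)) =
      (fun _ : Fin k => Units.mk0 a ha) • fun (t : Fin k) (b : Fin m) => bil K (M t) x (Pi.single b 1) := by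
    funext t b
    rw [bil_smul, Pi.smul_apply', Pi.smul_apply, Units.smul_def, Units.val_mk0, smul_eq_mul]
  rw [h3]
  exact h2

end

theorem thin : Pool.Agent.Q35.SM.S_C → Pool.Agent.Q35.MM.S_MK → Pool.Agent.Q35.GM.S_THIN := by
  classical
  intro hSC hMK K _ _ N k M A hk hkN hMH hCut
  have hd : 1 ≤ dg K := Module.finrank_pos
  obtain ⟨C, hC, hCb⟩ := hSC K (Fin 2) (nn N) (N + 1 - 2 * k) 1 A (by omega)
    (by show N + 1 - 2 * k ≤ N + 1; omega) hMH
  obtain ⟨c, hc, hMKc⟩ := hMK K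
  have hexp : nn N 1 + 1 - (N + 1 - 2 * k) = 2 * k := by
    show N + 1 - (N + 1 - 2 * k) = 2 * k
    omega
  rw [hexp] at hCb
  set C1 : ℝ := 3 ^ (dg K * (N + 1)) * ((bx K (N + 1) 1).card : ℝ) with hC1
  have hC10 : 0 ≤ C1 := by positivity
  refine ⟨C1 * C * (c : ℝ) ^ (dg K * (N + 1 + 2 * k)) * (2 ^ dg K) ^ (N + 1 + 2 * k),
    by positivity, fun T hT => ?_⟩
  have hT0 : 0 < T := by linarith
  set b : ℕ := ⌈T ^ (1 / (dg K : ℝ))⌉₊ with hb
  have hd0 : (dg K : ℝ) ≠ 0 := by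
    have : (1 : ℝ) ≤ dg K := by exact_mod_cast hd
    linarith
  have hroot : (T ^ (1 / (dg K : ℝ))) ^ dg K = T := by
    rw [← Real.rpow_natCast, ← Real.rpow_mul hT0.le, one_div, inv_mul_cancel₀ hd0, Real.rpow_one]
  have hr1 : 1 ≤ T ^ (1 / (dg K : ℝ)) := Real.one_le_rpow hT (by positivity)
  have hb1 : 1 ≤ b := by
    have : (1 : ℝ) ≤ (b : ℝ) := hr1.trans (Nat.le_ceil _)
    exact_mod_cast this
  have hTb : T ≤ (b : ℝ) ^ dg K := by
    conv_lhs => rw [← hroot]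
    exact pow_le_pow_left₀ (by linarith) (Nat.le_ceil _) _
  have hbT : (b : ℝ) ^ dg K ≤ 2 ^ dg K * T := by
    have h1 : (b : ℝ) ≤ 2 * T ^ (1 / (dg K : ℝ)) := by
      have := Nat.ceil_lt_add_one (show 0 ≤ T ^ (1 / (dg K : ℝ)) by linarith)
      linarith
    calc (b : ℝ) ^ dg K ≤ (2 * T ^ (1 / (dg K : ℝ))) ^ dg K :=
          pow_le_pow_left₀ (Nat.cast_nonneg _) h1 _
      _ = 2 ^ dg K * T := by rw [mul_pow, hroot]
  have hcb : 1 ≤ c * b := Nat.mul_pos hc hb1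
  have hrep : ∀ (x : Pts K (nn N)) (i : Fin 2), ∃ t : K, t ≠ 0 ∧
      ((x i).mulHeight ≤ T → t • (x i).rep ∈ bx K (N + 1) (c * b)) := by
    intro x i
    by_cases h : (x i).mulHeight ≤ T
    · have h1 : Height.mulHeight (x i).rep = (x i).mulHeight := by
        conv_rhs => rw [← (x i).mk_rep]
        rw [Projectivization.mulHeight_mk]
      obtain ⟨t, ht, h2⟩ := hMKc (N + 1) (x i).rep (x i).rep_nonzero b hb1
        (by rw [h1]; exact h.trans hTb)
      exact ⟨t, ht, fun _ => h2⟩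
    · exact ⟨1, one_ne_zero, fun h' => absurd h' h⟩
  choose t ht0 htb using hrep
  set F : Finset (Σ _ : Fin (N + 1) → K, Fin (N + 1) → K) :=
    ((bx K (N + 1) (c * b)).filter fun x => Gd K M x).sigma fun x =>
      (bx K (N + 1) (c * b)).filter fun y =>
        ¬ Opn K A (update (fun _ : Fin 2 => x) 1 y : Vs K (nn N)) with hF
  set S : Set (Pts K (nn N)) := {x : Pts K (nn N) | Gd K M (x 0).rep ∧
    ¬ Opn K A (fun i => (x i).rep) ∧ ∀ i, (x i).mulHeight ≤ T} with hS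
  let f : Pts K (nn N) → (Σ _ : Fin (N + 1) → K, Fin (N + 1) → K) := fun x =>
    ⟨t x 0 • (x 0).rep, t x 1 • (x 1).rep⟩
  have hmaps : ∀ x ∈ S, f x ∈ (F : Set (Σ _ : Fin (N + 1) → K, Fin (N + 1) → K)) := by
    rintro x ⟨h1, h2, h3⟩
    rw [mem_coe, hF, mem_sigma, mem_filter, mem_filter]
    refine ⟨⟨htb x 0 (h3 0), gd_smul (ht0 x 0) h1⟩, htb x 1 (h3 1), fun h4 => h2 ?_⟩
    have h5 : (update (fun _ : Fin 2 => (f x).1) 1 (f x).2 : Vs K (nn N)) =
        fun i => t x i • (x i).rep := by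
      funext i
      fin_cases i
      · rfl
      · rfl
    rw [h5] at h4
    exact opn_smul hMH (t x) h4
  have hinj : Set.InjOn f S := by
    intro x _ x' _ h
    have h0 : t x 0 • (x 0).rep = t x' 0 • (x' 0).rep := congrArg Sigma.fst h
    have h1 : t x 1 • (x 1).rep = t x' 1 • (x' 1).rep :=
      congrArg (fun p : (Σ _ : Fin (N + 1) → K, Fin (N + 1) → K) => p.2) h
    have h2 : ∀ i, t x i • (x i).rep = t x' i • (x' i).rep := by
      intro i
      fin_cases i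
      · exact h0
      · exact h1
    funext i
    rw [← (x i).mk_rep, ← (x' i).mk_rep, Projectivization.mk_eq_mk_iff']
    refine ⟨(t x i)⁻¹ * t x' i, ?_⟩
    rw [mul_smul, ← h2 i, ← mul_smul, inv_mul_cancel₀ (ht0 x i), one_smul]
  have hfin : S.Finite := Set.Finite.of_injOn hmaps hinj F.finite_toSet
  refine ⟨hfin, ?_⟩
  have hcardF : (F.card : ℝ) ≤ C1 * ((c * b : ℕ) : ℝ) ^ (dg K * (N + 1)) *
      (C * ((c * b : ℕ) : ℝ) ^ (dg K * (2 * k))) := by
    rw [hF, card_sigma]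
    push_cast
    have h1 : ∀ x ∈ (bx K (N + 1) (c * b)).filter fun x => Gd K M x,
        ((((bx K (N + 1) (c * b)).filter fun y =>
          ¬ Opn K A (update (fun _ : Fin 2 => x) 1 y : Vs K (nn N))).card : ℕ) : ℝ) ≤
          C * ((c * b : ℕ) : ℝ) ^ (dg K * (2 * k)) := by
      intro x hx
      rw [mem_filter] at hx
      exact hCb (fun _ => x) (hCut (fun _ => x) hx.2) (c * b) hcb
    refine (sum_le_sum h1).trans ?_
    rw [sum_const, nsmul_eq_mul]
    have h2 : ((((bx K (N + 1) (c * b)).filter fun x => Gd K M x).card : ℕ) : ℝ) ≤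
        C1 * ((c * b : ℕ) : ℝ) ^ (dg K * (N + 1)) := by
      refine (Nat.cast_le.mpr (card_filter_le _ _)).trans ?_
      exact Pool.Agent.Q150.MMG.card_bx Q144.MM.db (N + 1) hcb
    push_cast at h2 ⊢
    exact mul_le_mul_of_nonneg_right h2 (by positivity)
  have h1 : S.ncard ≤ F.card := by
    rw [← Set.ncard_coe_finset F]
    exact Set.ncard_le_ncard_of_injOn f hmaps hinj F.finite_toSet
  calc ((S.ncard : ℕ) : ℝ) ≤ (F.card : ℝ) := by exact_mod_cast h1
    _ ≤ C1 * ((c * b : ℕ) : ℝ) ^ (dg K * (N + 1)) *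
        (C * ((c * b : ℕ) : ℝ) ^ (dg K * (2 * k))) := hcardF
    _ = C1 * C * (c : ℝ) ^ (dg K * (N + 1 + 2 * k)) * ((b : ℝ) ^ dg K) ^ (N + 1 + 2 * k) := by
        push_cast
        rw [← pow_mul]
        ring
    _ ≤ C1 * C * (c : ℝ) ^ (dg K * (N + 1 + 2 * k)) * (2 ^ dg K * T) ^ (N + 1 + 2 * k) :=
        mul_le_mul_of_nonneg_left (pow_le_pow_left₀ (by positivity) hbT _) (by positivity)
    _ = C1 * C * (c : ℝ) ^ (dg K * (N + 1 + 2 * k)) * (2 ^ dg K) ^ (N + 1 + 2 * k) *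
        T ^ (N + 1 + 2 * k) := by
        rw [mul_pow (2 ^ dg K) T]
        ring

end Pool.Agent.Q53.GM
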