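import Pool.Agent.Q35.GM.Stm

/-! # Project GM (helper35), job GM-UCP: uniform continuity of the weights -/

set_option autoImplicit false

namespace Pool.Agent.Q53.GM

open Finset Function NumberField
open Pool.Agent.Q35.SM (Vs)
open Pool.Agent.Q35.EOW (nv)
open Pool.Agent.Q35.GM (nn plu nvp psS Nice)

section Local

variable {K : Type} [Field K] (f : AbsoluteValue K ℝ) {m : ℕ}

theorem le_nv (x : Fin m → K) (a : Fin m) : f (x a) ≤ nv f x :=
  le_ciSup (f := fun a => f (x a)) (Set.finite_range _).bddAbove a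

theorem nv_nonneg (x : Fin m → K) : 0 ≤ nv f x := Real.iSup_nonneg fun _ => f.nonneg _

theorem nv_le {x : Fin m → K} {c : ℝ} (hc : 0 ≤ c) (h : ∀ a, f (x a) ≤ c) : nv f x ≤ c :=
  Real.iSup_le h hc

theorem nv_pos {x : Fin m → K} (hx : x ≠ 0) : 0 < nv f x := by
  obtain ⟨a, ha⟩ := Function.ne_iff.mp hx
  exact (f.pos ha).trans_le (le_nv f x a)

theorem nv_smul (a : K) (x : Fin m → K) : nv f (a • x) = f a * nv f x := by
  unfold nv
  rw [Real.mul_iSup_of_nonneg (f.nonneg a)]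
  refine iSup_congr fun b => ?_
  rw [Pi.smul_apply, smul_eq_mul, map_mul]

theorem le_nvp (x y : Fin m → K) (p : Fin m × Fin m) : f (plu x y p) ≤ nvp f x y :=
  le_ciSup (f := fun p => f (plu x y p)) (Set.finite_range _).bddAbove p

theorem nvp_nonneg (x y : Fin m → K) : 0 ≤ nvp f x y := Real.iSup_nonneg fun _ => f.nonneg _

theorem nvp_smul (a b : K) (x y : Fin m → K) :
    nvp f (a • x) (b • y) = f a * f b * nvp f x y := by
  unfold nvp
  rw [Real.mul_iSup_of_nonneg (mul_nonneg (f.nonneg a) (f.nonneg b))]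
  refine iSup_congr fun p => ?_
  rw [← map_mul, ← map_mul]
  congr 1
  simp only [plu, Pi.smul_apply, smul_eq_mul]
  ring

theorem nvp_le (x y : Fin m → K) : nvp f x y ≤ 2 * (nv f x * nv f y) := by
  have hx := nv_nonneg f x
  have hy := nv_nonneg f y
  refine Real.iSup_le (fun p => ?_) (by positivity)
  have h1 : f (plu x y p) ≤ f (x p.1) * f (y p.2) + f (x p.2) * f (y p.1) := by
    rw [← map_mul, ← map_mul]
    simp only [plu]
    have h2 := f.sub_le (x p.1 * y p.2) 0 (x p.2 * y p.1)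
    rw [sub_zero, zero_sub, map_neg_eq_map] at h2
    exact h2
  have h3 : f (x p.1) * f (y p.2) ≤ nv f x * nv f y :=
    mul_le_mul (le_nv f x _) (le_nv f y _) (f.nonneg _) hx
  have h4 : f (x p.2) * f (y p.1) ≤ nv f x * nv f y :=
    mul_le_mul (le_nv f x _) (le_nv f y _) (f.nonneg _) hx
  linarith

theorem nv_tri (x x' : Fin m → K) : nv f x' ≤ nv f x + nv f (x - x') := by
  refine nv_le f (add_nonneg (nv_nonneg f _) (nv_nonneg f _)) fun a => ?_
  have h1 : x' a = x a + -(x - x') a := by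
    rw [Pi.sub_apply]
    ring
  rw [h1]
  refine (f.add_le _ _).trans ?_
  rw [map_neg_eq_map]
  exact add_le_add (le_nv f x a) (le_nv f (x - x') a)

theorem nv_tri' (x x' : Fin m → K) : nv f x ≤ nv f x' + nv f (x - x') := by
  refine nv_le f (add_nonneg (nv_nonneg f _) (nv_nonneg f _)) fun a => ?_
  have h1 : x a = x' a + (x - x') a := by
    rw [Pi.sub_apply]
    ring
  rw [h1]
  exact (f.add_le _ _).trans (add_le_add (le_nv f x' a) (le_nv f (x - x') a))

theorem plu_close {x x' y y' : Fin m → K} {δ : ℝ} (h0 : 0 ≤ δ) (h1 : δ ≤ 1)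
    (hx : nv f (x - x') ≤ δ * nv f x) (hy : nv f (y - y') ≤ δ * nv f y) (p : Fin m × Fin m) :
    f (plu x y p - plu x' y' p) ≤ 6 * δ * (nv f x * nv f y) := by
  have hX := nv_nonneg f x
  have hY := nv_nonneg f y
  have hX' : nv f x' ≤ 2 * nv f x := by
    have h2 := nv_tri f x x'
    nlinarith
  have e : plu x y p - plu x' y' p =
      ((x - x') p.1 * y p.2 + x' p.1 * (y - y') p.2) +
        -((x - x') p.2 * y p.1 + x' p.2 * (y - y') p.1) := by
    simp only [plu, Pi.sub_apply]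
    ring
  have hb : ∀ i j : Fin m, f ((x - x') i * y j + x' i * (y - y') j) ≤
      3 * δ * (nv f x * nv f y) := by
    intro i j
    refine (f.add_le _ _).trans ?_
    rw [map_mul, map_mul]
    have h3 : f ((x - x') i) * f (y j) ≤ (δ * nv f x) * nv f y :=
      mul_le_mul ((le_nv f _ i).trans hx) (le_nv f y j) (f.nonneg _) (by positivity)
    have h4 : f (x' i) * f ((y - y') j) ≤ (2 * nv f x) * (δ * nv f y) :=
      mul_le_mul ((le_nv f _ i).trans hX') ((le_nv f _ j).trans hy) (f.nonneg _) (by positivity)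
    nlinarith
  rw [e]
  refine (f.add_le _ _).trans ?_
  rw [map_neg_eq_map]
  have h5 := hb p.1 p.2
  have h6 := hb p.2 p.1
  linarith

theorem nvp_close {x x' y y' : Fin m → K} {δ : ℝ} (h0 : 0 ≤ δ) (h1 : δ ≤ 1)
    (hx : nv f (x - x') ≤ δ * nv f x) (hy : nv f (y - y') ≤ δ * nv f y) :
    |nvp f x y - nvp f x' y'| ≤ 6 * δ * (nv f x * nv f y) := by
  have hX := nv_nonneg f x
  have hY := nv_nonneg f y
  have hc := plu_close f h0 h1 hx hy
  have hn : 0 ≤ 6 * δ * (nv f x * nv f y) := by positivity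
  rw [abs_sub_le_iff]
  constructor
  · rw [sub_le_iff_le_add']
    refine Real.iSup_le (fun p => ?_) (add_nonneg (nvp_nonneg f _ _) hn)
    have e : plu x y p = plu x' y' p + (plu x y p - plu x' y' p) := by ring
    rw [e]
    exact (f.add_le _ _).trans (add_le_add (le_nvp f x' y' p) (hc p))
  · rw [sub_le_iff_le_add']
    refine Real.iSup_le (fun p => ?_) (add_nonneg (nvp_nonneg f _ _) hn)
    have e : plu x' y' p = plu x y p + -(plu x y p - plu x' y' p) := by ring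
    rw [e]
    refine (f.add_le _ _).trans ?_
    rw [map_neg_eq_map]
    exact add_le_add (le_nvp f x y p) (hc p)

/-- the local distance of two lines -/
noncomputable def rho {K : Type} [Field K] {m : ℕ} (v : K → ℝ) (x y : Fin m → K) : ℝ :=
  nvp v x y / (nv v x * nv v y)

theorem rho_nonneg (x y : Fin m → K) : 0 ≤ rho f x y :=
  div_nonneg (nvp_nonneg f x y) (mul_nonneg (nv_nonneg f x) (nv_nonneg f y))

theorem rho_le (x y : Fin m → K) : rho f x y ≤ 2 :=
  div_le_of_le_mul₀ (mul_nonneg (nv_nonneg f x) (nv_nonneg f y)) (by norm_num) (nvp_le f x y)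

theorem rho_smul {a b : K} (ha : a ≠ 0) (hb : b ≠ 0) (x y : Fin m → K) :
    rho f (a • x) (b • y) = rho f x y := by
  unfold rho
  rw [nvp_smul, nv_smul, nv_smul]
  have h1 : f a * nv f x * (f b * nv f y) = f a * f b * (nv f x * nv f y) := by ring
  rw [h1]
  exact mul_div_mul_left _ _ (mul_ne_zero (f.ne_zero ha) (f.ne_zero hb))

theorem rho_close {x x' y y' : Fin m → K} {δ : ℝ} (h0 : 0 ≤ δ) (h1 : δ ≤ 1)
    (hx : nv f (x - x') ≤ δ * nv f x) (hy : nv f (y - y') ≤ δ * nv f y)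
    (x0 : x ≠ 0) (y0 : y ≠ 0) (x0' : x' ≠ 0) (y0' : y' ≠ 0) :
    |rho f x y - rho f x' y'| ≤ 12 * δ := by
  have hX := nv_pos f x0
  have hY := nv_pos f y0
  have hX' := nv_pos f x0'
  have hY' := nv_pos f y0'
  have hA := nvp_close f h0 h1 hx hy
  have hA'2 := rho_le f x' y'
  have hA'0 := rho_nonneg f x' y'
  have hXX : |nv f x' * nv f y' - nv f x * nv f y| ≤ 3 * δ * (nv f x * nv f y) := by
    have a1 : |nv f x' - nv f x| ≤ δ * nv f x := by
      rw [abs_sub_le_iff]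
      have := nv_tri f x x'
      have := nv_tri' f x x'
      constructor <;> linarith
    have a2 : |nv f y' - nv f y| ≤ δ * nv f y := by
      rw [abs_sub_le_iff]
      have := nv_tri f y y'
      have := nv_tri' f y y'
      constructor <;> linarith
    have a3 : nv f x' ≤ 2 * nv f x := by
      have h2 := nv_tri f x x'
      nlinarith
    have e : nv f x' * nv f y' - nv f x * nv f y =
        nv f x' * (nv f y' - nv f y) + (nv f x' - nv f x) * nv f y := by ring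
    rw [e]
    refine (abs_add_le _ _).trans ?_
    rw [abs_mul, abs_mul, abs_of_pos hX', abs_of_pos hY]
    have a4 : nv f x' * |nv f y' - nv f y| ≤ (2 * nv f x) * (δ * nv f y) :=
      mul_le_mul a3 a2 (abs_nonneg _) (by positivity)
    have a5 : |nv f x' - nv f x| * nv f y ≤ (δ * nv f x) * nv f y :=
      mul_le_mul_of_nonneg_right a1 hY.le
    linarith
  have hXp : 0 < nv f x * nv f y := mul_pos hX hY
  have hXp' : 0 < nv f x' * nv f y' := mul_pos hX' hY'
  have e : rho f x y - rho f x' y' = (nvp f x y - nvp f x' y') / (nv f x * nv f y) +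
      rho f x' y' * ((nv f x' * nv f y' - nv f x * nv f y) / (nv f x * nv f y)) := by
    unfold rho
    field_simp
    ring
  rw [e]
  refine (abs_add_le _ _).trans ?_
  rw [abs_mul, abs_div, abs_div, abs_of_pos hXp, abs_of_nonneg hA'0]
  have b1 : |nvp f x y - nvp f x' y'| / (nv f x * nv f y) ≤ 6 * δ := by
    rw [div_le_iff₀ hXp]
    exact hA
  have b2 : |nv f x' * nv f y' - nv f x * nv f y| / (nv f x * nv f y) ≤ 3 * δ := by
    rw [div_le_iff₀ hXp]
    exact hXX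
  have b3 : rho f x' y' * (|nv f x' * nv f y' - nv f x * nv f y| / (nv f x * nv f y)) ≤
      2 * (3 * δ) :=
    mul_le_mul hA'2 b2 (by positivity) (by norm_num)
  linarith

end Local

section UC

variable {K : Type} [Field K] [NumberField K] {N : ℕ}

/-- the tuples of vectors are close -/
def cl (S : Finset (FinitePlace K)) (δ : ℝ) (P Q : Vs K (nn N)) : Prop :=
  (∀ i, ∀ v : InfinitePlace K, nv v (P i - Q i) ≤ δ * nv v (P i)) ∧
    ∀ i, ∀ v ∈ S, nv v (P i - Q i) ≤ δ * nv v (P i)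

omit [NumberField K] in
theorem nvi_nonneg (v : InfinitePlace K) {m : ℕ} (x : Fin m → K) : 0 ≤ nv v x := nv_nonneg v.1 x

theorem nvf_nonneg (v : FinitePlace K) {m : ℕ} (x : Fin m → K) : 0 ≤ nv v x := nv_nonneg v.1 x

theorem cl_mono {S : Finset (FinitePlace K)} {δ δ' : ℝ} (h : δ ≤ δ') {P Q : Vs K (nn N)}
    (hc : cl S δ P Q) : cl S δ' P Q :=
  ⟨fun i v => (hc.1 i v).trans (mul_le_mul_of_nonneg_right h (nvi_nonneg v _)),
    fun i v hv => (hc.2 i v hv).trans (mul_le_mul_of_nonneg_right h (nvf_nonneg v _))⟩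

/-- bounded and uniformly continuous -/
structure UC (Z : Vs K (nn N) → Prop) (S : Finset (FinitePlace K)) (f : Vs K (nn N) → ℝ) :
    Prop where
  bd : ∃ B : ℝ, 0 ≤ B ∧ ∀ P, Z P → |f P| ≤ B
  uc : ∀ ε : ℝ, 0 < ε → ∃ δ : ℝ, 0 < δ ∧ ∀ P Q, Z P → Z Q → cl S δ P Q → |f P - f Q| ≤ ε

variable {Z : Vs K (nn N) → Prop} {S : Finset (FinitePlace K)}

theorem uc_const (c : ℝ) : UC Z S fun _ => c :=
  ⟨⟨|c|, abs_nonneg _, fun _ _ => le_rfl⟩, fun ε hε => ⟨1, one_pos, fun _ _ _ _ _ => by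
    rw [sub_self, abs_zero]
    exact hε.le⟩⟩

theorem uc_mul {f g : Vs K (nn N) → ℝ} (hf : UC Z S f) (hg : UC Z S g) :
    UC Z S fun P => f P * g P := by
  obtain ⟨Bf, hBf0, hBf⟩ := hf.bd
  obtain ⟨Bg, hBg0, hBg⟩ := hg.bd
  refine ⟨⟨Bf * Bg, mul_nonneg hBf0 hBg0, fun P hP => ?_⟩, fun ε hε => ?_⟩
  · rw [abs_mul]
    exact mul_le_mul (hBf P hP) (hBg P hP) (abs_nonneg _) hBf0
  · obtain ⟨δ1, h1, h1'⟩ := hf.uc (ε / (2 * (Bg + 1))) (by positivity)
    obtain ⟨δ2, h2, h2'⟩ := hg.uc (ε / (2 * (Bf + 1))) (by positivity)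
    refine ⟨min δ1 δ2, lt_min h1 h2, fun P Q hP hQ hc => ?_⟩
    have a1 := h1' P Q hP hQ (cl_mono (min_le_left _ _) hc)
    have a2 := h2' P Q hP hQ (cl_mono (min_le_right _ _) hc)
    have e : f P * g P - f Q * g Q = f P * (g P - g Q) + (f P - f Q) * g Q := by ring
    rw [e]
    refine (abs_add_le _ _).trans ?_
    rw [abs_mul, abs_mul]
    have a3 : |f P| * |g P - g Q| ≤ Bf * (ε / (2 * (Bf + 1))) :=
      mul_le_mul (hBf P hP) a2 (abs_nonneg _) hBf0
    have a4 : |f P - f Q| * |g Q| ≤ ε / (2 * (Bg + 1)) * Bg :=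
      mul_le_mul a1 (hBg Q hQ) (abs_nonneg _) (by positivity)
    have a5 : Bf * (ε / (2 * (Bf + 1))) ≤ ε / 2 := by
      rw [mul_div_assoc', div_le_div_iff₀ (by positivity) (by norm_num)]
      nlinarith
    have a6 : ε / (2 * (Bg + 1)) * Bg ≤ ε / 2 := by
      rw [div_mul_eq_mul_div, div_le_div_iff₀ (by positivity) (by norm_num)]
      nlinarith
    linarith

theorem uc_pow {f : Vs K (nn N) → ℝ} (hf : UC Z S f) (k : ℕ) : UC Z S fun P => f P ^ k := by
  induction k with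
  | zero => simpa using uc_const (Z := Z) (S := S) (1 : ℝ)
  | succ k ih =>
    have h := uc_mul ih hf
    simpa only [pow_succ] using h

theorem uc_prod {α : Type} (s : Finset α) (f : α → Vs K (nn N) → ℝ) (hf : ∀ a ∈ s, UC Z S (f a)) :
    UC Z S fun P => ∏ a ∈ s, f a P := by
  classical
  induction s using Finset.induction_on with
  | empty => simpa using uc_const (Z := Z) (S := S) (1 : ℝ)
  | insert a s ha ih =>
    have h := uc_mul (hf a (mem_insert_self a s)) (ih fun b hb => hf b (mem_insert_of_mem hb))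
    simpa only [Finset.prod_insert ha] using h

theorem uc_lip {f : Vs K (nn N) → ℝ} (hf : UC Z S f) {G : ℝ → ℝ} {Λ : ℝ}
    (hG : ∀ u v, |G u - G v| ≤ Λ * |u - v|) (h0 : ∀ u, 0 ≤ G u) (h1 : ∀ u, G u ≤ 1) :
    UC Z S fun P => G (f P) := by
  refine ⟨⟨1, zero_le_one, fun P _ => ?_⟩, fun ε hε => ?_⟩
  · rw [abs_of_nonneg (h0 _)]
    exact h1 _
  · obtain ⟨δ, hδ, h⟩ := hf.uc (ε / (|Λ| + 1)) (by positivity)
    refine ⟨δ, hδ, fun P Q hP hQ hc => ?_⟩
    have a1 := h P Q hP hQ hc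
    refine (hG _ _).trans ?_
    have a2 : Λ * |f P - f Q| ≤ (|Λ| + 1) * (ε / (|Λ| + 1)) :=
      mul_le_mul (by linarith [le_abs_self Λ]) a1 (abs_nonneg _) (by positivity)
    refine a2.trans (le_of_eq ?_)
    field_simp

theorem uc_of_close {f : Vs K (nn N) → ℝ} (h0 : ∀ P, 0 ≤ f P) (h2 : ∀ P, f P ≤ 2)
    (h : ∀ (P Q : Vs K (nn N)) (δ : ℝ), 0 ≤ δ → δ ≤ 1 → Z P → Z Q → cl S δ P Q →
      |f P - f Q| ≤ 12 * δ) : UC Z S f := by
  refine ⟨⟨2, by norm_num, fun P _ => ?_⟩, fun ε hε => ?_⟩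
  · rw [abs_of_nonneg (h0 P)]
    exact h2 P
  · refine ⟨min 1 (ε / 12), lt_min one_pos (by positivity), fun P Q hP hQ hc => ?_⟩
    have h3 : 0 ≤ min 1 (ε / 12) := (lt_min one_pos (by positivity)).le
    refine (h P Q _ h3 (min_le_left _ _) hP hQ hc).trans ?_
    have := min_le_right 1 (ε / 12)
    linarith

end UC

theorem ucp : Pool.Agent.Q35.GM.S_UCP := by
  classical
  intro K _ _ N Z S F G Λ hZ hN hG hG0 hG1
  -- the local ratios
  have hwi : ∀ w : InfinitePlace K, UC Z S fun P => rho w (P 0) (P 1) := by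
    intro w
    refine uc_of_close (fun P => rho_nonneg w.1 _ _) (fun P => rho_le w.1 _ _) ?_
    intro P Q δ h0 h1 hP hQ hc
    exact rho_close w.1 h0 h1 (hc.1 0 w) (hc.1 1 w) (hZ P hP 0) (hZ P hP 1) (hZ Q hQ 0)
      (hZ Q hQ 1)
  have hvi : ∀ v ∈ S, UC Z S fun P => rho v (P 0) (P 1) := by
    intro v hv
    refine uc_of_close (fun P => rho_nonneg v.1 _ _) (fun P => rho_le v.1 _ _) ?_
    intro P Q δ h0 h1 hP hQ hc
    exact rho_close v.1 h0 h1 (hc.2 0 v hv) (hc.2 1 v hv) (hZ P hP 0) (hZ P hP 1) (hZ Q hQ 0)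
      (hZ Q hQ 1)
  have hps : ∀ P : Vs K (nn N), psS S (P 0) (P 1) =
      (∏ w : InfinitePlace K, rho w (P 0) (P 1) ^ w.mult) * ∏ v ∈ S, rho v (P 0) (P 1) :=
    fun P => rfl
  have hUC : UC Z S fun P => psS S (P 0) (P 1) := by
    have h := uc_mul (uc_prod univ (fun (w : InfinitePlace K) P => rho w (P 0) (P 1) ^ w.mult)
      fun w _ => uc_pow (hwi w) _) (uc_prod S (fun (v : FinitePlace K) P => rho v (P 0) (P 1)) hvi)
    exact h
  have hps0 : ∀ P : Vs K (nn N), 0 ≤ psS S (P 0) (P 1) := by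
    intro P
    rw [hps]
    exact mul_nonneg (prod_nonneg fun w _ => pow_nonneg (rho_nonneg w.1 _ _) _)
      (prod_nonneg fun v _ => rho_nonneg v.1 _ _)
  -- the halves of the ratios
  set D : ℝ := (∏ w : InfinitePlace K, (2 : ℝ) ^ w.mult) * ∏ _v ∈ S, (2 : ℝ) with hD
  have hD0 : 0 < D := by positivity
  have hhalf : ∀ P : Vs K (nn N), psS S (P 0) (P 1) =
      D * ((∏ w : InfinitePlace K, (rho w (P 0) (P 1) / 2) ^ w.mult) *
        ∏ v ∈ S, (rho v (P 0) (P 1) / 2)) := by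
    intro P
    have e1 : ∏ w : InfinitePlace K, rho w (P 0) (P 1) ^ w.mult =
        (∏ w : InfinitePlace K, (2 : ℝ) ^ w.mult) *
          ∏ w : InfinitePlace K, (rho w (P 0) (P 1) / 2) ^ w.mult := by
      rw [← prod_mul_distrib]
      refine prod_congr rfl fun w _ => ?_
      rw [← mul_pow]
      congr 1
      ring
    have e2 : ∏ v ∈ S, rho v (P 0) (P 1) = (∏ _v ∈ S, (2 : ℝ)) *
        ∏ v ∈ S, (rho v (P 0) (P 1) / 2) := by
      rw [← prod_mul_distrib]
      refine prod_congr rfl fun v _ => ?_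
      ring
    rw [hps, e1, e2, hD]
    ring
  have hi0 : ∀ (P : Vs K (nn N)) (w : InfinitePlace K), 0 ≤ rho w (P 0) (P 1) / 2 :=
    fun P w => by
      have : 0 ≤ rho w (P 0) (P 1) := rho_nonneg w.1 _ _
      positivity
  have hi1 : ∀ (P : Vs K (nn N)) (w : InfinitePlace K), rho w (P 0) (P 1) / 2 ≤ 1 :=
    fun P w => by
      have : rho w (P 0) (P 1) ≤ 2 := rho_le w.1 _ _
      linarith
  have hf0 : ∀ (P : Vs K (nn N)) (v : FinitePlace K), 0 ≤ rho v (P 0) (P 1) / 2 :=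
    fun P v => by
      have : 0 ≤ rho v (P 0) (P 1) := rho_nonneg v.1 _ _
      positivity
  have hf1 : ∀ (P : Vs K (nn N)) (v : FinitePlace K), rho v (P 0) (P 1) / 2 ≤ 1 :=
    fun P v => by
      have : rho v (P 0) (P 1) ≤ 2 := rho_le v.1 _ _
      linarith
  have hpi1 : ∀ P : Vs K (nn N), ∏ w : InfinitePlace K, (rho w (P 0) (P 1) / 2) ^ w.mult ≤ 1 :=
    fun P => prod_le_one (fun w _ => pow_nonneg (hi0 P w) _)
      fun w _ => pow_le_one₀ (hi0 P w) (hi1 P w)
  have hpf1 : ∀ P : Vs K (nn N), ∏ v ∈ S, (rho v (P 0) (P 1) / 2) ≤ 1 :=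
    fun P => prod_le_one (fun v _ => hf0 P v) fun v _ => hf1 P v
  have hpi0 : ∀ P : Vs K (nn N), 0 ≤ ∏ w : InfinitePlace K, (rho w (P 0) (P 1) / 2) ^ w.mult :=
    fun P => prod_nonneg fun w _ => pow_nonneg (hi0 P w) _
  have hpf0 : ∀ P : Vs K (nn N), 0 ≤ ∏ v ∈ S, (rho v (P 0) (P 1) / 2) :=
    fun P => prod_nonneg fun v _ => hf0 P v
  have hpsD : ∀ P : Vs K (nn N), psS S (P 0) (P 1) ≤ D := by
    intro P
    rw [hhalf]
    have := mul_le_one₀ (hpi1 P) (hpf0 P) (hpf1 P)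
    nlinarith
  have hpsw : ∀ (P : Vs K (nn N)) (w : InfinitePlace K),
      psS S (P 0) (P 1) ≤ D * (rho w (P 0) (P 1) / 2) := by
    intro P w
    rw [hhalf]
    refine mul_le_mul_of_nonneg_left ?_ hD0.le
    have h1 : ∏ w : InfinitePlace K, (rho w (P 0) (P 1) / 2) ^ w.mult ≤ rho w (P 0) (P 1) / 2 := by
      rw [← mul_prod_erase univ _ (mem_univ w)]
      have h2 : ∏ w' ∈ univ.erase w, (rho w' (P 0) (P 1) / 2) ^ w'.mult ≤ 1 :=
        prod_le_one (fun w' _ => pow_nonneg (hi0 P w') _)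
          fun w' _ => pow_le_one₀ (hi0 P w') (hi1 P w')
      have h3 : (rho w (P 0) (P 1) / 2) ^ w.mult ≤ rho w (P 0) (P 1) / 2 :=
        pow_le_of_le_one (hi0 P w) (hi1 P w) w.mult_ne_zero
      calc _ ≤ (rho w (P 0) (P 1) / 2) ^ w.mult * 1 :=
            mul_le_mul_of_nonneg_left h2 (pow_nonneg (hi0 P w) _)
        _ ≤ _ := by rwa [mul_one]
    calc _ ≤ (∏ w : InfinitePlace K, (rho w (P 0) (P 1) / 2) ^ w.mult) * 1 :=
          mul_le_mul_of_nonneg_left (hpf1 P) (hpi0 P)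
      _ ≤ _ := by rwa [mul_one]
  have hpsv : ∀ (P : Vs K (nn N)), ∀ v ∈ S,
      psS S (P 0) (P 1) ≤ D * (rho v (P 0) (P 1) / 2) := by
    intro P v hv
    rw [hhalf]
    refine mul_le_mul_of_nonneg_left ?_ hD0.le
    have h1 : ∏ v ∈ S, (rho v (P 0) (P 1) / 2) ≤ rho v (P 0) (P 1) / 2 := by
      rw [← mul_prod_erase S _ hv]
      have h2 : ∏ v' ∈ S.erase v, (rho v' (P 0) (P 1) / 2) ≤ 1 :=
        prod_le_one (fun v' _ => hf0 P v') fun v' _ => hf1 P v'
      calc _ ≤ (rho v (P 0) (P 1) / 2) * 1 := mul_le_mul_of_nonneg_left h2 (hf0 P v)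
        _ = _ := mul_one _
    calc _ ≤ 1 * ∏ v ∈ S, (rho v (P 0) (P 1) / 2) :=
          mul_le_mul_of_nonneg_right (hpi1 P) (hpf0 P)
      _ ≤ _ := by rwa [one_mul]
  obtain ⟨B0, hB0⟩ := hN.bd
  set B : ℝ := max B0 1 with hB
  have hB1 : 1 ≤ B := le_max_right _ _
  have hFB : ∀ P, Z P → 0 ≤ F P ∧ F P ≤ B := fun P hP =>
    ⟨(hB0 P hP).1, (hB0 P hP).2.trans (le_max_left _ _)⟩
  -- the factor without F
  set g : Vs K (nn N) → ℝ := fun P => psS S (P 0) (P 1) ^ 2 * G (psS S (P 0) (P 1)) with hg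
  have hgUC : UC Z S g := uc_mul (uc_pow hUC 2) (uc_lip hUC hG hG0 hG1)
  have hg0 : ∀ P, 0 ≤ g P := fun P => mul_nonneg (pow_nonneg (hps0 P) _) (hG0 _)
  have hgsq : ∀ P, g P ≤ psS S (P 0) (P 1) ^ 2 := fun P => by
    have := mul_le_mul_of_nonneg_left (hG1 (psS S (P 0) (P 1))) (pow_nonneg (hps0 P) 2)
    simpa [hg] using this
  have hgD : ∀ P, g P ≤ D ^ 2 := fun P =>
    (hgsq P).trans (pow_le_pow_left₀ (hps0 P) (hpsD P) 2)
  refine ⟨⟨D ^ 2 * B, by positivity, fun P hP => ⟨mul_nonneg (hg0 P) (hFB P hP).1,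
    mul_le_mul (hgD P) (hFB P hP).2 (hFB P hP).1 (by positivity)⟩⟩, ?_, ?_⟩
  · intro a ha P hP
    have hb : ∀ v : InfinitePlace K,
        rho v (a 0 • P 0) (a 1 • P 1) = rho v (P 0) (P 1) := fun v =>
      rho_smul v.1 (ha 0) (ha 1) _ _
    have hb' : ∀ v : FinitePlace K,
        rho v (a 0 • P 0) (a 1 • P 1) = rho v (P 0) (P 1) := fun v =>
      rho_smul v.1 (ha 0) (ha 1) _ _
    show (∏ w : InfinitePlace K, rho w (a 0 • P 0) (a 1 • P 1) ^ w.mult) *
        ∏ v ∈ S, rho v (a 0 • P 0) (a 1 • P 1) =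
      (∏ w : InfinitePlace K, rho w (P 0) (P 1) ^ w.mult) * ∏ v ∈ S, rho v (P 0) (P 1)
    rw [prod_congr rfl fun w _ => by rw [hb w], prod_congr rfl fun v _ => hb' v]
  · intro ε hε
    set c' : ℝ := min 1 (ε / (4 * B)) with hc'
    have hc'0 : 0 < c' := lt_min one_pos (by positivity)
    have hc'1 : c' ≤ 1 := min_le_left _ _
    have hc'2 : 4 * B * c' ≤ ε := by
      have := min_le_right 1 (ε / (4 * B))
      calc 4 * B * c' ≤ 4 * B * (ε / (4 * B)) := mul_le_mul_of_nonneg_left this (by positivity)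
        _ = ε := by field_simp
    obtain ⟨δ1, hδ1, h1⟩ := hUC.uc c' hc'0
    obtain ⟨δ2, hδ2, h2⟩ := hgUC.uc (ε / (2 * B)) (by positivity)
    obtain ⟨δ3, hδ3, h3⟩ := hN.cont (2 * c' / D) (ε / (2 * D ^ 2)) (by positivity) (by positivity)
    refine ⟨min δ1 (min δ2 δ3), lt_min hδ1 (lt_min hδ2 hδ3), fun P Q hP hQ hci hcf => ?_⟩
    have hc : cl S (min δ1 (min δ2 δ3)) P Q := ⟨hci, hcf⟩
    have a1 := h1 P Q hP hQ (cl_mono (min_le_left _ _) hc)
    have a2 := h2 P Q hP hQ (cl_mono ((min_le_right _ _).trans (min_le_left _ _)) hc)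
    have hc3 : cl S δ3 P Q := cl_mono ((min_le_right _ _).trans (min_le_right _ _)) hc
    show |g P * F P - g Q * F Q| ≤ ε
    by_cases h : psS S (P 0) (P 1) < c'
    · have b0 : c' ^ 2 * B ≤ c' * B :=
        mul_le_mul_of_nonneg_right (pow_le_of_le_one hc'0.le hc'1 two_ne_zero) (by linarith)
      have b00 : 0 < c' * B := mul_pos hc'0 (by linarith)
      have b1 : psS S (Q 0) (Q 1) ≤ 2 * c' := by
        have := (abs_sub_le_iff.mp a1).2
        linarith
      have b2 : g P * F P ≤ ε := by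
        have : g P ≤ c' ^ 2 := (hgsq P).trans (pow_le_pow_left₀ (hps0 P) h.le 2)
        calc g P * F P ≤ c' ^ 2 * B := mul_le_mul this (hFB P hP).2 (hFB P hP).1 (by positivity)
          _ ≤ 4 * B * c' := by linarith
          _ ≤ ε := hc'2
      have b3 : g Q * F Q ≤ ε := by
        have : g Q ≤ (2 * c') ^ 2 := (hgsq Q).trans (pow_le_pow_left₀ (hps0 Q) b1 2)
        calc g Q * F Q ≤ (2 * c') ^ 2 * B :=
              mul_le_mul this (hFB Q hQ).2 (hFB Q hQ).1 (by positivity)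
          _ ≤ 4 * B * c' := by linarith
          _ ≤ ε := hc'2
      have b4 := mul_nonneg (hg0 P) (hFB P hP).1
      have b5 := mul_nonneg (hg0 Q) (hFB Q hQ).1
      rw [abs_le]
      constructor <;> linarith
    · push Not at h
      have hlow : ∀ ρ X Y : ℝ, 0 < X → psS S (P 0) (P 1) ≤ D * (Y / X / 2) → ρ = Y / X →
          2 * c' / D * X ≤ Y := by
        intro ρ X Y hX hle _
        have k1 : c' ≤ D * (Y / X / 2) := h.trans hle
        have k2 : 2 * c' / D ≤ Y / X := by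
          rw [div_le_iff₀ hD0]
          linarith
        rwa [le_div_iff₀ hX] at k2
      have d1 := h3 P Q hP hQ
        (fun w => hlow (rho w (P 0) (P 1)) _ _
          (mul_pos (nv_pos w.1 (hZ P hP 0)) (nv_pos w.1 (hZ P hP 1))) (hpsw P w) rfl)
        (fun v hv => hlow (rho v (P 0) (P 1)) _ _
          (mul_pos (nv_pos v.1 (hZ P hP 0)) (nv_pos v.1 (hZ P hP 1))) (hpsv P v hv) rfl)
        hc3.1 hc3.2
      have e : g P * F P - g Q * F Q = g P * (F P - F Q) + (g P - g Q) * F Q := by ring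
      rw [e]
      refine (abs_add_le _ _).trans ?_
      rw [abs_mul (g P) (F P - F Q), abs_mul (g P - g Q) (F Q), abs_of_nonneg (hg0 P),
        abs_of_nonneg (hFB Q hQ).1]
      have k3 : g P * |F P - F Q| ≤ D ^ 2 * (ε / (2 * D ^ 2)) :=
        mul_le_mul (hgD P) d1 (abs_nonneg _) (by positivity)
      have k4 : |g P - g Q| * F Q ≤ ε / (2 * B) * B :=
        mul_le_mul a2 (hFB Q hQ).2 (hFB Q hQ).1 (by positivity)
      have k5 : D ^ 2 * (ε / (2 * D ^ 2)) = ε / 2 := by field_simp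
      have k6 : ε / (2 * B) * B = ε / 2 := by
        have : B ≠ 0 := by linarith
        field_simp
      linarith

end Pool.Agent.Q53.GM
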